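import Mathlib

set_option autoImplicit false

/-!
# No exponential orthonormal basis for the overlapping symmetric additive spaces
-/

namespace Pool.Agent.Results.MP_476b1b_an.NoExpBasis

open MeasureTheory Set Filter Topology

noncomputable section

/-- The measure `μ_t`: one-dimensional Lebesgue measure on the two segments `I_t × {0}` and
`{0} × I_t`, where `I_t = [t, t+1]`. -/
def mu (t : ℝ) : Measure (ℝ × ℝ) :=
  (volume.restrict (Icc t (t + 1))).map (fun x : ℝ => (x, (0 : ℝ))) +
    (volume.restrict (Icc t (t + 1))).map (fun y : ℝ => ((0 : ℝ), y))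

/-- The exponential `e_λ(x, y) = e^{2πi(λ₁x + λ₂y)}`. -/
def expo (l p : ℝ × ℝ) : ℂ :=
  Complex.exp (2 * Real.pi * Complex.I * (l.1 * p.1 + l.2 * p.2))

/-- The exponentials `e_λ`, `λ ∈ Λ`, normalised, form an orthonormal basis of `L²(μ_t)`. -/
def IsExpONB (t : ℝ) (Λ : Set (ℝ × ℝ)) : Prop :=
  ∃ b : HilbertBasis Λ ℂ (Lp ℂ 2 (mu t)),
    ∀ l : Λ, b l =ᵐ[mu t] fun p => (1 / Real.sqrt 2 : ℝ) * expo l p

/-! ## The tent function -/

/-- the tent function -/
def tent (a x : ℝ) : ℝ := max 0 (1 - |x| / a)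

theorem tent_cont {a : ℝ} : Continuous (tent a) := by
  unfold tent
  fun_prop

theorem tent_nonneg (a x : ℝ) : 0 ≤ tent a x := le_max_left _ _

theorem tent_le {a : ℝ} (ha : 0 < a) (x : ℝ) : tent a x ≤ 1 := by
  unfold tent
  refine max_le (by norm_num) ?_
  have : 0 ≤ |x| / a := by positivity
  linarith

/-- the value of the Fourier transform of the tent -/
def ft (a c : ℝ) : ℝ := if c = 0 then a else (2 - 2 * Real.cos (c * a)) / (c ^ 2 * a)

theorem ft_nonneg {a : ℝ} (ha : 0 < a) (c : ℝ) : 0 ≤ ft a c := by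
  unfold ft
  split_ifs with h
  · exact ha.le
  · refine div_nonneg ?_ (by positivity)
    linarith [Real.cos_le_one (c * a)]

theorem ft_pos {a : ℝ} (ha : 0 < a) {c : ℝ} (hc : |c| * a < 2 * Real.pi) : 0 < ft a c := by
  unfold ft
  split_ifs with h
  · exact ha
  · refine div_pos ?_ (by positivity)
    have h1 : Real.cos (c * a) < 1 := by
      refine lt_of_le_of_ne (Real.cos_le_one _) fun h2 => ?_
      have h3 : |c * a| < 2 * Real.pi := by rwa [abs_mul, abs_of_pos ha]
      rw [abs_lt] at h3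
      have h4 := (Real.cos_eq_one_iff_of_lt_of_lt h3.1 h3.2).1 h2
      rcases mul_eq_zero.1 h4 with h5 | h5
      · exact h h5
      · exact ha.ne' h5
    linarith

theorem hd (x : ℝ) : HasDerivAt (fun x : ℝ => (x : ℂ)) 1 x := by
  have h := (hasDerivAt_id x).ofReal_comp
  exact h.congr_deriv Complex.ofReal_one

theorem tent_int {a : ℝ} (ha : 0 < a) (c : ℝ) :
    ∫ x in (-a)..a, (tent a x : ℂ) * Complex.exp (Complex.I * c * x) = ft a c := by
  have hi : ∀ u v : ℝ, IntervalIntegrable
      (fun x : ℝ => (tent a x : ℂ) * Complex.exp (Complex.I * c * x)) volume u v := by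
    intro u v
    refine Continuous.intervalIntegrable ?_ _ _
    have := tent_cont (a := a)
    fun_prop
  rw [← intervalIntegral.integral_add_adjacent_intervals (hi (-a) 0) (hi 0 a)]
  have h1 : ∫ x in (-a)..0, (tent a x : ℂ) * Complex.exp (Complex.I * c * x) =
      ∫ x in (-a)..0, (1 + (x : ℂ) / a) * Complex.exp (Complex.I * c * x) := by
    refine intervalIntegral.integral_congr fun x hx => ?_
    rw [uIcc_of_le (by linarith)] at hx
    have : tent a x = 1 + x / a := by
      unfold tent
      rw [abs_of_nonpos hx.2, max_eq_right]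
      · ring
      · have : -x / a ≤ 1 := by rw [div_le_one ha]; linarith [hx.1]
        linarith
    simp only [this]
    push_cast
    ring
  have h2 : ∫ x in (0 : ℝ)..a, (tent a x : ℂ) * Complex.exp (Complex.I * c * x) =
      ∫ x in (0 : ℝ)..a, (1 - (x : ℂ) / a) * Complex.exp (Complex.I * c * x) := by
    refine intervalIntegral.integral_congr fun x hx => ?_
    rw [uIcc_of_le ha.le] at hx
    have : tent a x = 1 - x / a := by
      unfold tent
      rw [abs_of_nonneg hx.1, max_eq_right]
      have : x / a ≤ 1 := by rw [div_le_one ha]; exact hx.2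
      linarith
    simp only [this]
    push_cast
    ring
  rw [h1, h2]
  have haC : (a : ℂ) ≠ 0 := by exact_mod_cast ha.ne'
  by_cases hc : c = 0
  · subst hc
    unfold ft
    rw [if_pos rfl]
    simp only [Complex.ofReal_zero, mul_zero, zero_mul, Complex.exp_zero, mul_one]
    have e1 : ∀ x ∈ uIcc (-a) 0, HasDerivAt (fun x : ℝ => (x : ℂ) + (x : ℂ) ^ 2 / (2 * a))
        (1 + (x : ℂ) / a) x := by
      intro x _
      have h' := hd x
      have h3 := h'.add ((h'.pow 2).div_const (2 * (a : ℂ)))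
      refine h3.congr_deriv ?_
      push_cast
      field_simp
    have e2 : ∀ x ∈ uIcc (0 : ℝ) a, HasDerivAt (fun x : ℝ => (x : ℂ) - (x : ℂ) ^ 2 / (2 * a))
        (1 - (x : ℂ) / a) x := by
      intro x _
      have h' := hd x
      have h3 := h'.sub ((h'.pow 2).div_const (2 * (a : ℂ)))
      refine h3.congr_deriv ?_
      push_cast
      field_simp
    rw [intervalIntegral.integral_eq_sub_of_hasDerivAt e1
        (Continuous.intervalIntegrable (by fun_prop) _ _),
      intervalIntegral.integral_eq_sub_of_hasDerivAt e2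
        (Continuous.intervalIntegrable (by fun_prop) _ _)]
    push_cast
    field_simp
    ring
  · have hcC : (c : ℂ) ≠ 0 := by exact_mod_cast hc
    unfold ft
    rw [if_neg hc]
    have e0 : ∀ x : ℝ, HasDerivAt (fun x : ℝ => Complex.exp (Complex.I * c * x))
        (Complex.exp (Complex.I * c * x) * (Complex.I * c)) x := by
      intro x
      have h' := hd x
      have h3 := (h'.const_mul (Complex.I * c)).cexp
      simpa using h3
    have e1 : ∀ x ∈ uIcc (-a) 0, HasDerivAt
        (fun x : ℝ => (1 + (x : ℂ) / a) * Complex.exp (Complex.I * c * x) * (-Complex.I / c) +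
          Complex.exp (Complex.I * c * x) / (c ^ 2 * a))
        ((1 + (x : ℂ) / a) * Complex.exp (Complex.I * c * x)) x := by
      intro x _
      have h' := hd x
      have h3 := ((((h'.div_const (a : ℂ)).const_add 1).mul (e0 x)).mul_const
        (-Complex.I / c)).add ((e0 x).div_const ((c : ℂ) ^ 2 * a))
      refine h3.congr_deriv ?_
      field_simp
      ring_nf
      rw [Complex.I_sq]
      ring
    have e2 : ∀ x ∈ uIcc (0 : ℝ) a, HasDerivAt
        (fun x : ℝ => (1 - (x : ℂ) / a) * Complex.exp (Complex.I * c * x) * (-Complex.I / c) -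
          Complex.exp (Complex.I * c * x) / (c ^ 2 * a))
        ((1 - (x : ℂ) / a) * Complex.exp (Complex.I * c * x)) x := by
      intro x _
      have h' := hd x
      have h3 := ((((h'.div_const (a : ℂ)).const_sub 1).mul (e0 x)).mul_const
        (-Complex.I / c)).sub ((e0 x).div_const ((c : ℂ) ^ 2 * a))
      refine h3.congr_deriv ?_
      field_simp
      ring_nf
      rw [Complex.I_sq]
      ring
    rw [intervalIntegral.integral_eq_sub_of_hasDerivAt e1
        (Continuous.intervalIntegrable (by fun_prop) _ _),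
      intervalIntegral.integral_eq_sub_of_hasDerivAt e2
        (Continuous.intervalIntegrable (by fun_prop) _ _)]
    have e3 : ((Real.cos (c * a) : ℝ) : ℂ) =
        (Complex.exp (Complex.I * c * a) + Complex.exp (-(Complex.I * c * a))) / 2 := by
      rw [Complex.ofReal_cos, Complex.cos]
      push_cast
      congr 2
      · congr 1
        ring
      · congr 1
        ring
    push_cast
    push_cast at e3
    rw [e3]
    simp only [mul_zero, Complex.exp_zero, zero_div, mul_neg]
    field_simp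
    ring

/-! ## Integration against `μ_t` -/

instance (t : ℝ) : IsFiniteMeasure (mu t) := by
  unfold mu
  infer_instance

theorem meas1 : Measurable (fun x : ℝ => (x, (0 : ℝ))) := measurable_id.prodMk measurable_const

theorem meas2 : Measurable (fun x : ℝ => ((0 : ℝ), x)) := measurable_const.prodMk measurable_id

theorem int_mu (t : ℝ) {h : ℝ × ℝ → ℂ} (hm : Measurable h) {C : ℝ} (hb : ∀ p, ‖h p‖ ≤ C) :
    ∫ p, h p ∂(mu t) = (∫ x in Icc t (t + 1), h (x, 0)) + ∫ y in Icc t (t + 1), h (0, y) := by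
  have hi : ∀ ν : Measure (ℝ × ℝ), IsFiniteMeasure ν → Integrable h ν := fun ν hν =>
    Integrable.of_bound hm.aestronglyMeasurable C (Eventually.of_forall hb)
  unfold mu
  rw [integral_add_measure (hi _ inferInstance) (hi _ inferInstance),
    integral_map meas1.aemeasurable hm.aestronglyMeasurable,
    integral_map meas2.aemeasurable hm.aestronglyMeasurable]

theorem mu_univ (t : ℝ) : mu t univ ≠ 0 := by
  unfold mu
  rw [Measure.add_apply, Measure.map_apply meas1 MeasurableSet.univ,
    Measure.map_apply meas2 MeasurableSet.univ]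
  simp

/-- the tent on the horizontal segment -/
def F1 (a : ℝ) (p : ℝ × ℝ) : ℂ := if p.2 = 0 then (tent a p.1 : ℂ) else 0

/-- the tent on the vertical segment -/
def F2 (a : ℝ) (p : ℝ × ℝ) : ℂ := if p.1 = 0 then (tent a p.2 : ℂ) else 0

theorem F1_meas (a : ℝ) : Measurable (F1 a) := by
  unfold F1
  have := tent_cont (a := a)
  refine Measurable.ite (measurableSet_eq_fun measurable_snd measurable_const) ?_ measurable_const
  exact Complex.measurable_ofReal.comp (this.measurable.comp measurable_fst)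

theorem F2_meas (a : ℝ) : Measurable (F2 a) := by
  unfold F2
  have := tent_cont (a := a)
  refine Measurable.ite (measurableSet_eq_fun measurable_fst measurable_const) ?_ measurable_const
  exact Complex.measurable_ofReal.comp (this.measurable.comp measurable_snd)

theorem norm_tent {a : ℝ} (ha : 0 < a) (x : ℝ) : ‖(tent a x : ℂ)‖ ≤ 1 := by
  rw [Complex.norm_real, Real.norm_eq_abs, abs_of_nonneg (tent_nonneg _ _)]
  exact tent_le ha x

theorem F1_bound {a : ℝ} (ha : 0 < a) (p : ℝ × ℝ) : ‖F1 a p‖ ≤ 1 := by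
  unfold F1
  split_ifs
  · exact norm_tent ha _
  · simp

theorem F2_bound {a : ℝ} (ha : 0 < a) (p : ℝ × ℝ) : ‖F2 a p‖ ≤ 1 := by
  unfold F2
  split_ifs
  · exact norm_tent ha _
  · simp

theorem F1_memLp {a : ℝ} (ha : 0 < a) (t : ℝ) : MemLp (F1 a) 2 (mu t) :=
  MemLp.of_bound (F1_meas a).aestronglyMeasurable 1 (Eventually.of_forall (F1_bound ha))

theorem F2_memLp {a : ℝ} (ha : 0 < a) (t : ℝ) : MemLp (F2 a) 2 (mu t) :=
  MemLp.of_bound (F2_meas a).aestronglyMeasurable 1 (Eventually.of_forall (F2_bound ha))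

theorem expo_meas (l : ℝ × ℝ) : Measurable (expo l) := by
  unfold expo
  fun_prop

theorem expo_norm (l p : ℝ × ℝ) : ‖expo l p‖ = 1 := by
  unfold expo
  rw [show (2 * Real.pi * Complex.I * (l.1 * p.1 + l.2 * p.2) : ℂ) =
    ((2 * Real.pi * (l.1 * p.1 + l.2 * p.2) : ℝ) : ℂ) * Complex.I by push_cast; ring]
  exact Complex.norm_exp_ofReal_mul_I _

theorem ae_zero (t : ℝ) (h : ℝ → ℂ) (hh : ∀ x, x ≠ 0 → h x = 0) :
    ∫ x in Icc t (t + 1), h x = 0 := by
  have : h =ᵐ[volume.restrict (Icc t (t + 1))] fun _ => 0 := by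
    refine ae_restrict_of_ae ?_
    filter_upwards [compl_mem_ae_iff.2 (Real.volume_singleton (a := 0))] with x hx
    exact hh x hx
  rw [integral_congr_ae this, integral_zero]

theorem tent_int2 {a t : ℝ} (ha : 0 < a) (h1 : t ≤ -a) (h2 : a ≤ t + 1) (c : ℝ) :
    ∫ x in Icc t (t + 1), (tent a x : ℂ) * Complex.exp (Complex.I * c * x) = ft a c := by
  rw [← tent_int ha, intervalIntegral.integral_of_le (by linarith), ← integral_Icc_eq_integral_Ioc]
  refine setIntegral_eq_of_subset_of_forall_diff_eq_zero measurableSet_Icc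
    (Icc_subset_Icc h1 h2) fun x hx => ?_
  have : tent a x = 0 := by
    unfold tent
    refine max_eq_left ?_
    have h3 : a < |x| := by
      by_contra hcon
      exact hx.2 (abs_le.1 (not_lt.1 hcon))
    have : 1 < |x| / a := (one_lt_div ha).2 h3
    linarith
  rw [this]
  simp

theorem inner_F1 {a t : ℝ} (ha : 0 < a) (h1 : t ≤ -a) (h2 : a ≤ t + 1) (l : ℝ × ℝ)
    (g : Lp ℂ 2 (mu t)) (hg : g =ᵐ[mu t] fun p => (1 / Real.sqrt 2 : ℝ) * expo l p) :
    inner ℂ ((F1_memLp ha t).toLp (F1 a)) g =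
      ((1 / Real.sqrt 2 * ft a (2 * Real.pi * l.1) : ℝ) : ℂ) := by
  rw [L2.inner_def]
  have e1 : (fun p => inner ℂ (((F1_memLp ha t).toLp (F1 a) : Lp ℂ 2 (mu t)) p) (g p)) =ᵐ[mu t]
      fun p => ((1 / Real.sqrt 2 : ℝ) : ℂ) * (F1 a p * expo l p) := by
    filter_upwards [(F1_memLp ha t).coeFn_toLp, hg] with p hp hq
    rw [hp, hq, RCLike.inner_apply]
    have : (starRingEnd ℂ) (F1 a p) = F1 a p := by
      unfold F1
      split_ifs
      · exact Complex.conj_ofReal _
      · simp
    rw [this]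
    ring
  rw [integral_congr_ae e1, int_mu t (C := 1 / Real.sqrt 2)]
  · have e2 : ∫ y in Icc t (t + 1), ((1 / Real.sqrt 2 : ℝ) : ℂ) * (F1 a (0, y) * expo l (0, y)) = 0 := by
      refine ae_zero t _ fun y hy => ?_
      unfold F1
      simp [hy]
    rw [e2, add_zero, integral_const_mul, Complex.ofReal_mul, ← tent_int2 ha h1 h2]
    congr 1
    refine setIntegral_congr_fun measurableSet_Icc fun x _ => ?_
    unfold F1 expo
    simp only [if_true]
    congr 2
    push_cast
    ring
  · exact measurable_const.mul ((F1_meas a).mul (expo_meas l))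
  · intro p
    rw [norm_mul, norm_mul, expo_norm, mul_one, Complex.norm_real, Real.norm_eq_abs,
      abs_of_nonneg (by positivity)]
    exact mul_le_of_le_one_right (by positivity) (F1_bound ha p)

theorem inner_F2 {a t : ℝ} (ha : 0 < a) (h1 : t ≤ -a) (h2 : a ≤ t + 1) (l : ℝ × ℝ)
    (g : Lp ℂ 2 (mu t)) (hg : g =ᵐ[mu t] fun p => (1 / Real.sqrt 2 : ℝ) * expo l p) :
    inner ℂ ((F2_memLp ha t).toLp (F2 a)) g =
      ((1 / Real.sqrt 2 * ft a (2 * Real.pi * l.2) : ℝ) : ℂ) := by
  rw [L2.inner_def]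
  have e1 : (fun p => inner ℂ (((F2_memLp ha t).toLp (F2 a) : Lp ℂ 2 (mu t)) p) (g p)) =ᵐ[mu t]
      fun p => ((1 / Real.sqrt 2 : ℝ) : ℂ) * (F2 a p * expo l p) := by
    filter_upwards [(F2_memLp ha t).coeFn_toLp, hg] with p hp hq
    rw [hp, hq, RCLike.inner_apply]
    have : (starRingEnd ℂ) (F2 a p) = F2 a p := by
      unfold F2
      split_ifs
      · exact Complex.conj_ofReal _
      · simp
    rw [this]
    ring
  rw [integral_congr_ae e1, int_mu t (C := 1 / Real.sqrt 2)]
  · have e2 : ∫ y in Icc t (t + 1), ((1 / Real.sqrt 2 : ℝ) : ℂ) * (F2 a (y, 0) * expo l (y, 0)) = 0 := by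
      refine ae_zero t _ fun y hy => ?_
      unfold F2
      simp [hy]
    rw [e2, zero_add, integral_const_mul, Complex.ofReal_mul, ← tent_int2 ha h1 h2]
    congr 1
    refine setIntegral_congr_fun measurableSet_Icc fun x _ => ?_
    unfold F2 expo
    simp only [if_true]
    congr 2
    push_cast
    ring
  · exact measurable_const.mul ((F2_meas a).mul (expo_meas l))
  · intro p
    rw [norm_mul, norm_mul, expo_norm, mul_one, Complex.norm_real, Real.norm_eq_abs,
      abs_of_nonneg (by positivity)]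
    exact mul_le_of_le_one_right (by positivity) (F2_bound ha p)

theorem inner_F12 {a t : ℝ} (ha : 0 < a) :
    inner ℂ ((F1_memLp ha t).toLp (F1 a)) ((F2_memLp ha t).toLp (F2 a)) = (0 : ℂ) := by
  rw [L2.inner_def]
  have e1 : (fun p => inner ℂ (((F1_memLp ha t).toLp (F1 a) : Lp ℂ 2 (mu t)) p)
      (((F2_memLp ha t).toLp (F2 a) : Lp ℂ 2 (mu t)) p)) =ᵐ[mu t]
      fun p => F2 a p * (starRingEnd ℂ) (F1 a p) := by
    filter_upwards [(F1_memLp ha t).coeFn_toLp, (F2_memLp ha t).coeFn_toLp] with p hp hq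
    rw [hp, hq, RCLike.inner_apply]
  rw [integral_congr_ae e1, int_mu t (C := 1)]
  · rw [ae_zero t _ fun y hy => ?_, ae_zero t _ fun y hy => ?_, add_zero]
    · unfold F1
      simp [hy]
    · unfold F2
      simp [hy]
  · exact (F2_meas a).mul (Complex.continuous_conj.measurable.comp (F1_meas a))
  · intro p
    rw [norm_mul, RCLike.norm_conj]
    exact mul_le_one₀ (F2_bound ha p) (norm_nonneg _) (F1_bound ha p)

/-- **Main theorem.** For `-1/2 ≤ t < 0` no set of exponentials is, after normalisation, an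
orthonormal basis of `L²(μ_t)`. -/
theorem result (t : ℝ) (ht : -1 / 2 ≤ t) (ht0 : t < 0) : ¬ ∃ Λ : Set (ℝ × ℝ), IsExpONB t Λ := by
  rintro ⟨Λ, b, hb⟩
  -- `Λ` is nonempty
  have hne : Nonempty Λ := by
    by_contra hcon
    rw [not_nonempty_iff] at hcon
    set g : Lp ℂ 2 (mu t) := indicatorConstLp 2 MeasurableSet.univ (measure_ne_top _ _) (1 : ℂ)
    have h1 := b.hasSum_inner_mul_inner g g
    have h2 := h1.unique (hasSum_empty)
    rw [inner_self_eq_zero] at h2
    have h3 : ‖g‖ ≠ 0 := by
      rw [norm_indicatorConstLp (by norm_num) (by norm_num)]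
      simp only [norm_one, one_mul]
      refine (Real.rpow_pos_of_pos ?_ _).ne'
      exact ENNReal.toReal_pos (mu_univ t) (measure_ne_top _ _)
    exact h3 (by rw [h2, norm_zero])
  obtain ⟨l₀⟩ := hne
  -- the width of the tents
  set M : ℝ := |l₀.1.1| + |l₀.1.2| + 1 with hM
  have hM1 : 1 ≤ M := by
    have := abs_nonneg l₀.1.1
    have := abs_nonneg l₀.1.2
    linarith
  set a : ℝ := -t / M with ha'
  have ha : 0 < a := div_pos (by linarith) (by linarith)
  have haM : a * M = -t := by
    rw [ha']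
    field_simp
  have hat : a ≤ -t := by nlinarith
  have h1 : t ≤ -a := by linarith
  have h2 : a ≤ t + 1 := by linarith
  have hsum := b.hasSum_inner_mul_inner ((F1_memLp ha t).toLp (F1 a)) ((F2_memLp ha t).toLp (F2 a))
  rw [inner_F12 ha] at hsum
  have hterm : ∀ l : Λ, inner ℂ ((F1_memLp ha t).toLp (F1 a)) (b l) *
      inner ℂ (b l) ((F2_memLp ha t).toLp (F2 a)) =
      (((1 / Real.sqrt 2 * ft a (2 * Real.pi * l.1.1)) *
        (1 / Real.sqrt 2 * ft a (2 * Real.pi * l.1.2)) : ℝ) : ℂ) := by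
    intro l
    rw [inner_F1 ha h1 h2 l.1 (b l) (hb l), ← inner_conj_symm (b l),
      inner_F2 ha h1 h2 l.1 (b l) (hb l), Complex.conj_ofReal, ← Complex.ofReal_mul]
  simp only [hterm] at hsum
  have hsum2 := (Complex.hasSum_ofReal).1 (by simpa only [Complex.ofReal_zero] using hsum :
    HasSum (fun l : Λ => (((1 / Real.sqrt 2 * ft a (2 * Real.pi * l.1.1)) *
        (1 / Real.sqrt 2 * ft a (2 * Real.pi * l.1.2)) : ℝ) : ℂ)) ((0 : ℝ) : ℂ))
  have hnn : ∀ l : Λ, 0 ≤ (1 / Real.sqrt 2 * ft a (2 * Real.pi * l.1.1)) *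
        (1 / Real.sqrt 2 * ft a (2 * Real.pi * l.1.2)) := fun l =>
    mul_nonneg (mul_nonneg (by positivity) (ft_nonneg ha _))
      (mul_nonneg (by positivity) (ft_nonneg ha _))
  have hz := congrFun ((hasSum_zero_iff_of_nonneg hnn).1 hsum2) l₀
  have hpos : ∀ s : ℝ, |s| ≤ M → 0 < ft a (2 * Real.pi * s) := by
    intro s hs
    refine ft_pos ha ?_
    rw [abs_mul, abs_of_pos Real.two_pi_pos]
    have h3 : |s| * a ≤ 1 / 2 := by
      calc |s| * a ≤ M * a := by gcongr
        _ = -t := by rw [mul_comm, haM]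
        _ ≤ 1 / 2 := by linarith
    nlinarith [Real.pi_pos]
  have hp1 := hpos l₀.1.1 (by rw [hM]; linarith [abs_nonneg l₀.1.2])
  have hp2 := hpos l₀.1.2 (by rw [hM]; linarith [abs_nonneg l₀.1.1])
  have : 0 < (1 / Real.sqrt 2 * ft a (2 * Real.pi * l₀.1.1)) *
        (1 / Real.sqrt 2 * ft a (2 * Real.pi * l₀.1.2)) := by positivity
  exact this.ne' hz

end

end Pool.Agent.Results.MP_476b1b_an.NoExpBasis
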